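import Mathlib

/-!
# Random proper colourings: resampling a set of vertices

For a finite graph `G`, a set `B` of vertices and a set of at least `|Bᶜ|` colours, the number of
vertices outside `B` whose colour occurs on `B` is, on average over all proper colourings, at most
`|Bᶜ| / λ` times the average number of colours which occur on `B`.
-/

set_option autoImplicit false
open Classical Finset

namespace Pool.Agent.W181

variable {V C : Type} [Fintype V] [Fintype C]

/-- The proper colourings of `G` with colours in `C`. -/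
noncomputable def Col (G : SimpleGraph V) (C : Type) [Fintype C] : Finset (V → C) :=
  univ.filter (fun c => ∀ u v, G.Adj u v → c u ≠ c v)

lemma mem_Col {G : SimpleGraph V} {c : V → C} :
    c ∈ Col G C ↔ ∀ u v, G.Adj u v → c u ≠ c v := by
  simp [Col]

/-- The proper colourings which agree with `r` outside `B`. -/
noncomputable def Fib (G : SimpleGraph V) (B : Finset V) (r : {v // v ∉ B} → C) :
    Finset (V → C) :=
  (Col G C).filter (fun c => (fun v : {v // v ∉ B} => c v) = r)

lemma mem_Fib {G : SimpleGraph V} {B : Finset V} {r : {v // v ∉ B} → C} {c : V → C} :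
    c ∈ Fib G B r ↔ c ∈ Col G C ∧ ∀ v (h : v ∉ B), c v = r ⟨v, h⟩ := by
  unfold Fib
  rw [mem_filter]
  constructor
  · rintro ⟨h1, h2⟩
    exact ⟨h1, fun v h => congrFun h2 ⟨v, h⟩⟩
  · rintro ⟨h1, h2⟩
    exact ⟨h1, funext fun v => h2 v.1 v.2⟩

/-- number of colourings in the fibre which use the colour `a` on `B`. -/
noncomputable def Nn (G : SimpleGraph V) (B : Finset V) (r : {v // v ∉ B} → C) (a : C) : ℕ :=
  ((Fib G B r).filter (fun c => a ∈ B.image c)).card

/-- number of vertices outside `B` with colour `a`. -/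
noncomputable def mm (B : Finset V) (r : {v // v ∉ B} → C) (a : C) : ℕ :=
  (univ.filter (fun v : {v // v ∉ B} => r v = a)).card

lemma Nn_le (G : SimpleGraph V) (B : Finset V) (r : {v // v ∉ B} → C) (a a0 : C)
    (h0 : mm B r a0 = 0) : Nn G B r a ≤ Nn G B r a0 := by
  have hun : ∀ v, r v ≠ a0 := by
    intro v hv
    unfold mm at h0
    rw [card_eq_zero] at h0
    have : v ∈ univ.filter (fun v : {v // v ∉ B} => r v = a0) := by simp [hv]
    rw [h0] at this
    simp at this
  rcases eq_or_ne a a0 with haa | haa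
  · rw [haa]
  -- split according to the other colour
  have hs1 : Nn G B r a = ((Fib G B r).filter (fun c => a ∈ B.image c ∧ a0 ∈ B.image c)).card +
      ((Fib G B r).filter (fun c => a ∈ B.image c ∧ a0 ∉ B.image c)).card := by
    unfold Nn
    rw [← filter_filter, ← filter_filter, card_filter_add_card_filter_not]
  have hs2 : Nn G B r a0 = ((Fib G B r).filter (fun c => a ∈ B.image c ∧ a0 ∈ B.image c)).card +
      ((Fib G B r).filter (fun c => a0 ∈ B.image c ∧ a ∉ B.image c)).card := by
    unfold Nn
    have : (Fib G B r).filter (fun c => a ∈ B.image c ∧ a0 ∈ B.image c) =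
        (Fib G B r).filter (fun c => a0 ∈ B.image c ∧ a ∈ B.image c) := by
      apply filter_congr
      intro c _
      exact and_comm
    rw [this, ← filter_filter, ← filter_filter, card_filter_add_card_filter_not]
  rw [hs1, hs2]
  apply Nat.add_le_add_left
  -- the injection
  let f : (V → C) → (V → C) := fun c v => if v ∈ B then Equiv.swap a a0 (c v) else c v
  have hf : Function.Injective f := by
    intro c d hcd
    funext v
    have := congrFun hcd v
    simp only [f] at this
    by_cases hv : v ∈ B
    · simp only [hv, if_true] at this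
      exact (Equiv.swap a a0).injective this
    · simpa only [hv, if_false] using this
  apply card_le_card_of_injOn f
  · intro c hc
    rw [mem_coe, mem_filter, mem_Fib, mem_Col] at hc
    obtain ⟨⟨hcol, hr⟩, ha, ha0⟩ := hc
    rw [mem_coe, mem_filter, mem_Fib, mem_Col]
    have hB : ∀ v ∈ B, c v ≠ a0 := fun v hv h => ha0 (mem_image.2 ⟨v, hv, h⟩)
    have key : ∀ u v, G.Adj u v → u ∈ B → v ∉ B → f c u ≠ f c v := by
      intro u v huv hu hv
      simp only [f, hu, hv, if_true, if_false]
      by_cases h1 : c u = a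
      · rw [h1, Equiv.swap_apply_left, hr v hv]
        exact fun h => hun _ h.symm
      · rw [Equiv.swap_apply_of_ne_of_ne h1 (hB u hu)]
        exact hcol u v huv
    refine ⟨⟨?_, ?_⟩, ?_, ?_⟩
    · intro u v huv
      by_cases hu : u ∈ B <;> by_cases hv : v ∈ B
      · simp only [f, hu, hv, if_true]
        exact fun h => hcol u v huv ((Equiv.swap a a0).injective h)
      · exact key u v huv hu hv
      · exact (key v u huv.symm hv hu).symm
      · simp only [f, hu, hv, if_false]
        exact hcol u v huv
    · intro v hv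
      simp only [f, hv, if_false]
      exact hr v hv
    · obtain ⟨v, hv, hva⟩ := mem_image.1 ha
      refine mem_image.2 ⟨v, hv, ?_⟩
      simp [f, hv, hva]
    · intro h
      obtain ⟨v, hv, hva⟩ := mem_image.1 h
      simp only [f, hv, if_true] at hva
      have : c v = a0 := by
        have h2 := congrArg (Equiv.swap a a0) hva
        rwa [Equiv.swap_apply_self, Equiv.swap_apply_left] at h2
      exact hB v hv this
  · exact hf.injOn

lemma sum_mm (B : Finset V) (r : {v // v ∉ B} → C) :
    ∑ a, mm B r a = Fintype.card {v // v ∉ B} := by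
  unfold mm
  have := card_eq_sum_card_fiberwise (f := r) (s := univ) (t := (univ : Finset C))
    (fun _ _ => by simp)
  rw [← card_univ, this]

/-- The inequality in one fibre. -/
lemma fib_ineq (G : SimpleGraph V) (B : Finset V) (r : {v // v ∉ B} → C)
    (hcard : Fintype.card {v // v ∉ B} ≤ Fintype.card C) :
    (Fintype.card C : ℤ) * ∑ a, (mm B r a : ℤ) * (Nn G B r a : ℤ) ≤
      (Fintype.card {v // v ∉ B} : ℤ) * ∑ a, (Nn G B r a : ℤ) := by
  set L : ℤ := (Fintype.card C : ℤ) with hL
  set M : ℤ := (Fintype.card {v // v ∉ B} : ℤ) with hM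
  have hML : M ≤ L := by rw [hM, hL]; exact_mod_cast hcard
  have hsum : ∑ a, (mm B r a : ℤ) = M := by rw [hM, ← sum_mm B r]; push_cast; rfl
  have hzero : ∑ a : C, (M - L * (mm B r a : ℤ)) = 0 := by
    rw [sum_sub_distrib, ← mul_sum, hsum, sum_const, card_univ, nsmul_eq_mul, ← hL]
    ring
  have hgoal : 0 ≤ ∑ a, (Nn G B r a : ℤ) * (M - L * (mm B r a : ℤ)) := by
    by_cases hex : ∃ a0, mm B r a0 = 0
    · obtain ⟨a0, h0⟩ := hex
      have h1 : ∑ a, (Nn G B r a0 : ℤ) * (M - L * (mm B r a : ℤ)) = 0 := by
        rw [← mul_sum, hzero, mul_zero]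
      rw [← h1]
      apply sum_le_sum
      intro a _
      by_cases ha : mm B r a = 0
      · have h2 : Nn G B r a = Nn G B r a0 := le_antisymm (Nn_le G B r a a0 h0) (Nn_le G B r a0 a ha)
        rw [h2]
      · have h2 : (1 : ℤ) ≤ (mm B r a : ℤ) := by exact_mod_cast Nat.one_le_iff_ne_zero.2 ha
        have h3 : M - L * (mm B r a : ℤ) ≤ 0 := by nlinarith [Int.natCast_nonneg (Fintype.card C)]
        have h4 : (Nn G B r a : ℤ) ≤ (Nn G B r a0 : ℤ) := by exact_mod_cast Nn_le G B r a a0 h0
        nlinarith
    · push Not at hex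
      have h1 : ∀ a, (1 : ℤ) ≤ (mm B r a : ℤ) := fun a => by
        exact_mod_cast Nat.one_le_iff_ne_zero.2 (hex a)
      have h2 : ∀ a ∈ (univ : Finset C), (M - L * (mm B r a : ℤ)) ≤ 0 := by
        intro a _
        have := h1 a
        nlinarith [Int.natCast_nonneg (Fintype.card C)]
      have h3 := (sum_eq_zero_iff_of_nonpos h2).1 hzero
      apply le_of_eq
      symm
      apply sum_eq_zero
      intro a ha
      rw [h3 a ha, mul_zero]
  have hexp : ∑ a, (Nn G B r a : ℤ) * (M - L * (mm B r a : ℤ)) =
      M * ∑ a, (Nn G B r a : ℤ) - L * ∑ a, (mm B r a : ℤ) * (Nn G B r a : ℤ) := by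
    rw [mul_sum, mul_sum, ← sum_sub_distrib]
    apply sum_congr rfl
    intro a _
    ring
  linarith

lemma fib_sum_image (G : SimpleGraph V) (B : Finset V) (r : {v // v ∉ B} → C) :
    ∑ c ∈ Fib G B r, ((B.image c).card : ℤ) = ∑ a, (Nn G B r a : ℤ) := by
  have h1 : ∀ c : V → C, ((B.image c).card : ℤ) = ∑ a : C, if a ∈ B.image c then (1 : ℤ) else 0 := by
    intro c
    rw [sum_ite_mem, univ_inter, sum_const, nsmul_eq_mul, mul_one]
  simp_rw [h1]
  rw [sum_comm]
  apply sum_congr rfl
  intro a _
  unfold Nn
  rw [card_filter]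
  push_cast
  rfl

lemma fib_sum_out (G : SimpleGraph V) (B : Finset V) (r : {v // v ∉ B} → C) :
    ∑ c ∈ Fib G B r, ((univ.filter (fun v => v ∉ B ∧ c v ∈ B.image c)).card : ℤ) =
      ∑ a, (mm B r a : ℤ) * (Nn G B r a : ℤ) := by
  have h1 : ∀ c ∈ Fib G B r, ((univ.filter (fun v => v ∉ B ∧ c v ∈ B.image c)).card : ℤ) =
      ∑ a : C, if a ∈ B.image c then (mm B r a : ℤ) else 0 := by
    intro c hc
    rw [mem_Fib] at hc
    obtain ⟨-, hr⟩ := hc
    have h2 : (univ.filter (fun v => v ∉ B ∧ c v ∈ B.image c)).card =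
        (univ.filter (fun v : {v // v ∉ B} => r v ∈ B.image c)).card := by
      refine card_bij' (fun v hv => (⟨v, (mem_filter.1 hv).2.1⟩ : {v // v ∉ B}))
        (fun v _ => v.1) ?_ ?_ ?_ ?_
      · intro v hv
        have := (mem_filter.1 hv).2
        rw [mem_filter]
        refine ⟨mem_univ _, ?_⟩
        rw [← hr v this.1]
        exact this.2
      · intro v hv
        rw [mem_filter] at hv ⊢
        refine ⟨mem_univ _, v.2, ?_⟩
        rw [hr v.1 v.2]
        exact hv.2
      · intro v hv
        rfl
      · intro v hv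
        rfl
    rw [h2]
    have h3 := card_eq_sum_card_fiberwise (f := r)
      (s := univ.filter (fun v : {v // v ∉ B} => r v ∈ B.image c)) (t := B.image c)
      (fun v hv => by
        have := (mem_filter.1 (mem_coe.1 hv)).2
        exact mem_coe.2 this)
    rw [h3, sum_ite_mem, univ_inter]
    push_cast
    apply sum_congr rfl
    intro a ha
    congr 1
    unfold mm
    congr 1
    ext v
    simp only [mem_filter, mem_univ, true_and]
    constructor
    · rintro ⟨_, h⟩; exact h
    · intro h; exact ⟨by rw [h]; exact ha, h⟩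
  rw [sum_congr rfl h1, sum_comm]
  apply sum_congr rfl
  intro a _
  rw [← sum_filter, sum_const, nsmul_eq_mul]
  unfold Nn
  ring

/-- **Resampling inequality.** -/
theorem resample (G : SimpleGraph V) (B : Finset V)
    (hcard : Fintype.card {v // v ∉ B} ≤ Fintype.card C) :
    (Fintype.card C : ℤ) *
        ∑ c ∈ Col G C, ((univ.filter (fun v => v ∉ B ∧ c v ∈ B.image c)).card : ℤ) ≤
      (Fintype.card {v // v ∉ B} : ℤ) * ∑ c ∈ Col G C, ((B.image c).card : ℤ) := by
  have h1 := fun (q : (V → C) → ℤ) => sum_fiberwise (Col G C)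
    (fun c => (fun v : {v // v ∉ B} => c v)) q
  rw [← h1, ← h1, mul_sum, mul_sum]
  apply sum_le_sum
  intro r _
  have e1 := fib_sum_out G B r
  have e2 := fib_sum_image G B r
  unfold Fib at e1 e2
  rw [e1, e2]
  exact fib_ineq G B r hcard

end Pool.Agent.W181
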