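import Mathlib
import Pool.Agent.W181.ColorRes

/-!
# The proportion of colourings which do not use a given colour
-/

set_option autoImplicit false
open Classical Finset

namespace Pool.Agent.W181

variable {V C : Type} [Fintype V] [Fintype C]

/-- The proper colourings in which the colour `a` does not occur on `B`. -/
noncomputable def Av (G : SimpleGraph V) (B : Finset V) (a : C) : Finset (V → C) :=
  (Col G C).filter (fun c => a ∉ B.image c)

lemma mem_Av {G : SimpleGraph V} {B : Finset V} {a : C} {c : V → C} :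
    c ∈ Av G B a ↔ c ∈ Col G C ∧ ∀ v ∈ B, c v ≠ a := by
  unfold Av
  rw [mem_filter]
  constructor
  · rintro ⟨h1, h2⟩
    exact ⟨h1, fun v hv h => h2 (mem_image.2 ⟨v, hv, h⟩)⟩
  · rintro ⟨h1, h2⟩
    refine ⟨h1, fun h => ?_⟩
    obtain ⟨v, hv, h3⟩ := mem_image.1 h
    exact h2 v hv h3

lemma Av_comp {G : SimpleGraph V} {B : Finset V} {a a' : C} {c : V → C} (hc : c ∈ Av G B a) :
    (fun v => Equiv.swap a a' (c v)) ∈ Av G B a' := by
  rw [mem_Av, mem_Col] at hc ⊢
  refine ⟨fun u v huv h => hc.1 u v huv ((Equiv.swap a a').injective h), fun v hv h => ?_⟩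
  apply hc.2 v hv
  have := congrArg (Equiv.swap a a') h
  rwa [Equiv.swap_apply_self, Equiv.swap_apply_right] at this

/-- Symmetry in the colours. -/
lemma sum_Av_symm (G : SimpleGraph V) (B : Finset V) (a a' : C) (F : C → (V → C) → ℤ)
    (hF : ∀ c : V → C, F a' (fun v => Equiv.swap a a' (c v)) = F a c) :
    ∑ c ∈ Av G B a, F a c = ∑ c ∈ Av G B a', F a' c := by
  refine sum_bij' (fun c _ => fun v => Equiv.swap a a' (c v))
    (fun c _ => fun v => Equiv.swap a a' (c v)) ?_ ?_ ?_ ?_ ?_
  · intro c hc
    exact Av_comp hc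
  · intro c hc
    have := Av_comp (a' := a) hc
    rwa [Equiv.swap_comm] at this
  · intro c hc
    funext v
    simp
  · intro c hc
    funext v
    simp
  · intro c hc
    exact (hF c).symm

lemma card_Av_symm (G : SimpleGraph V) (B : Finset V) (a a' : C) :
    ((Av G B a).card : ℤ) = (Av G B a').card := by
  have := sum_Av_symm G B a a' (fun _ _ => 1) (fun _ => rfl)
  simpa using this

/-- number of vertices of colour `a` -/
noncomputable def num (a : C) (c : V → C) : ℤ := ((univ.filter (fun v => c v = a)).card : ℤ)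

lemma sum_num_symm (G : SimpleGraph V) (B : Finset V) (a a' : C) :
    ∑ c ∈ Av G B a, num a c = ∑ c ∈ Av G B a', num a' c := by
  apply sum_Av_symm G B a a' num
  intro c
  unfold num
  congr 2
  ext v
  simp only [mem_filter, mem_univ, true_and]
  constructor
  · intro h
    have := congrArg (Equiv.swap a a') h
    rwa [Equiv.swap_apply_self, Equiv.swap_apply_right] at this
  · intro h
    rw [h, Equiv.swap_apply_left]

lemma total_card (G : SimpleGraph V) (B : Finset V) :
    ∑ a : C, ((Av G B a).card : ℤ) =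
      ∑ c ∈ Col G C, ((Fintype.card C : ℤ) - ((B.image c).card : ℤ)) := by
  unfold Av
  simp_rw [card_filter]
  push_cast
  rw [sum_comm]
  apply sum_congr rfl
  intro c _
  have h1 : ∑ a : C, (if a ∉ B.image c then (1 : ℤ) else 0) =
      ((univ.filter (fun a => a ∉ B.image c)).card : ℤ) := by
    rw [card_filter]; push_cast; rfl
  rw [h1]
  have h2 : univ.filter (fun a => a ∉ B.image c) = (B.image c)ᶜ := by
    ext a; simp
  rw [h2, card_compl, Nat.cast_sub (card_le_univ _)]

lemma total_num (G : SimpleGraph V) (B : Finset V) :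
    ∑ a : C, ∑ c ∈ Av G B a, num a c =
      ∑ c ∈ Col G C, ((Fintype.card {v // v ∉ B} : ℤ) -
        ((univ.filter (fun v => v ∉ B ∧ c v ∈ B.image c)).card : ℤ)) := by
  unfold Av
  simp_rw [sum_filter]
  rw [sum_comm]
  apply sum_congr rfl
  intro c _
  have h1 : ∑ a : C, (if a ∉ B.image c then num a c else 0) =
      ((univ.filter (fun v => c v ∉ B.image c)).card : ℤ) := by
    have h3 := card_eq_sum_card_fiberwise (f := c)
      (s := univ.filter (fun v => c v ∉ B.image c)) (t := (univ : Finset C))
      (fun v _ => by simp)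
    rw [h3]
    push_cast
    apply sum_congr rfl
    intro a _
    by_cases h : a ∈ B.image c
    · rw [if_neg (not_not.2 h)]
      symm
      rw [Nat.cast_eq_zero, card_eq_zero, filter_eq_empty_iff]
      intro v hv h2
      apply (mem_filter.1 hv).2
      rw [h2]
      exact h
    · rw [if_pos h]
      unfold num
      congr 2
      ext v
      simp only [mem_filter, mem_univ, true_and]
      constructor
      · rintro rfl; exact ⟨h, rfl⟩
      · rintro ⟨_, h⟩; exact h
  rw [h1]
  have h4 : Fintype.card {v // v ∉ B} = (univ.filter (fun v => v ∉ B)).card := by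
    rw [Fintype.card_subtype]
  have h5 : (univ.filter (fun v => v ∉ B)).card =
      ((univ.filter (fun v => v ∉ B)).filter (fun v => c v ∈ B.image c)).card +
      ((univ.filter (fun v => v ∉ B)).filter (fun v => c v ∉ B.image c)).card := by
    rw [card_filter_add_card_filter_not]
  have h6 : (univ.filter (fun v => v ∉ B)).filter (fun v => c v ∉ B.image c) =
      univ.filter (fun v => c v ∉ B.image c) := by
    ext v
    simp only [mem_filter, mem_univ, true_and, and_iff_right_iff_imp]
    intro h hv
    exact h (mem_image_of_mem c hv)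
  rw [h4, h5, h6, filter_filter]
  push_cast
  ring

/-- The average number of vertices of colour `a`, over the proper colourings which avoid the colour
`a` on `B`, is at least `|Bᶜ| / λ`. -/
theorem avg_num (G : SimpleGraph V) (B : Finset V) (a : C)
    (hcard : Fintype.card {v // v ∉ B} ≤ Fintype.card C) :
    (Fintype.card {v // v ∉ B} : ℤ) * ((Av G B a).card : ℤ) ≤
      (Fintype.card C : ℤ) * ∑ c ∈ Av G B a, num a c := by
  have hL : 0 < (Fintype.card C : ℤ) := by
    have : Nonempty C := ⟨a⟩
    exact_mod_cast Fintype.card_pos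
  set L : ℤ := (Fintype.card C : ℤ) with hLdef
  set M : ℤ := (Fintype.card {v // v ∉ B} : ℤ) with hMdef
  have h1 : L * ((Av G B a).card : ℤ) =
      ∑ c ∈ Col G C, (L - ((B.image c).card : ℤ)) := by
    rw [← total_card G B]
    rw [sum_congr rfl (fun a' _ => (card_Av_symm G B a a').symm), sum_const, card_univ,
      nsmul_eq_mul]
  have h2 : L * ∑ c ∈ Av G B a, num a c =
      ∑ c ∈ Col G C, (M - ((univ.filter (fun v => v ∉ B ∧ c v ∈ B.image c)).card : ℤ)) := by
    rw [← total_num G B]
    rw [sum_congr rfl (fun a' _ => (sum_num_symm G B a a').symm), sum_const, card_univ,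
      nsmul_eq_mul]
  have h3 := resample (C := C) G B hcard
  rw [← hLdef, ← hMdef] at h3
  rw [sum_sub_distrib] at h1 h2
  rw [sum_const, nsmul_eq_mul] at h1 h2
  have h4 : L * (M * ((Av G B a).card : ℤ)) ≤ L * (L * ∑ c ∈ Av G B a, num a c) := by
    have e1 : L * (M * ((Av G B a).card : ℤ)) = M * (L * ((Av G B a).card : ℤ)) := by ring
    rw [e1, h1, h2]
    nlinarith [h3]
  exact le_of_mul_le_mul_left h4 hL

lemma sum_num_eq (G : SimpleGraph V) (B : Finset V) (a : C) :
    ∑ c ∈ Av G B a, num a c =
      ∑ v ∈ Bᶜ, (((Av G B a).filter (fun c => c v = a)).card : ℤ) := by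
  simp_rw [card_filter]
  push_cast
  rw [sum_comm]
  apply sum_congr rfl
  intro c hc
  rw [mem_Av] at hc
  unfold num
  rw [card_filter]
  push_cast
  symm
  apply sum_subset (subset_univ _)
  intro v _ hv
  rw [mem_compl, not_not] at hv
  rw [if_neg (hc.2 v hv)]

/-- There is a vertex outside `B` which has the colour `a` with probability at least `1 / λ`. -/
theorem exists_vertex (G : SimpleGraph V) (B : Finset V) (a : C)
    (hcard : Fintype.card {v // v ∉ B} ≤ Fintype.card C) (hne : (Bᶜ).Nonempty) :
    ∃ v ∈ Bᶜ, (Fintype.card C : ℤ) * ((Av G (insert v B) a).card : ℤ) ≤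
      ((Fintype.card C : ℤ) - 1) * ((Av G B a).card : ℤ) := by
  have h1 := avg_num G B a hcard
  rw [sum_num_eq, mul_sum] at h1
  have h2 : (Fintype.card {v // v ∉ B} : ℤ) * ((Av G B a).card : ℤ) =
      ∑ v ∈ Bᶜ, ((Av G B a).card : ℤ) := by
    rw [sum_const, nsmul_eq_mul]
    congr 2
    rw [Fintype.card_subtype]
    congr 1
    ext v
    simp
  rw [h2] at h1
  obtain ⟨v, hv, h3⟩ := exists_le_of_sum_le hne h1
  refine ⟨v, hv, ?_⟩
  have h4 : Av G (insert v B) a = (Av G B a).filter (fun c => ¬ c v = a) := by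
    ext c
    rw [mem_filter, mem_Av, mem_Av]
    constructor
    · rintro ⟨h5, h6⟩
      exact ⟨⟨h5, fun w hw => h6 w (mem_insert_of_mem hw)⟩, h6 v (mem_insert_self v B)⟩
    · rintro ⟨⟨h5, h6⟩, h7⟩
      refine ⟨h5, fun w hw => ?_⟩
      rcases mem_insert.1 hw with rfl | hw
      · exact h7
      · exact h6 w hw
  have h5 : (Av G B a).card = ((Av G B a).filter (fun c => c v = a)).card +
      ((Av G B a).filter (fun c => ¬ c v = a)).card := by
    rw [card_filter_add_card_filter_not]
  rw [h4]
  have h6 : (((Av G B a).filter (fun c => ¬ c v = a)).card : ℤ) =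
      ((Av G B a).card : ℤ) - (((Av G B a).filter (fun c => c v = a)).card : ℤ) := by
    rw [h5]; push_cast; ring
  rw [h6]
  linarith

/-- **Chain.** -/
theorem chain (G : SimpleGraph V) (a : C) :
    ∀ (m : ℕ) (B : Finset V), (Bᶜ).card = m → m ≤ Fintype.card C →
      (Fintype.card C : ℤ) ^ m * ((Av G univ a).card : ℤ) ≤
        ((Fintype.card C : ℤ) - 1) ^ m * ((Av G B a).card : ℤ) := by
  have hL : 0 < (Fintype.card C : ℤ) := by
    have : Nonempty C := ⟨a⟩
    exact_mod_cast Fintype.card_pos
  intro m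
  induction m with
  | zero =>
    intro B hB _
    have : B = univ := by
      rw [card_eq_zero, compl_eq_empty_iff] at hB
      exact hB
    rw [this]
    simp
  | succ m ih =>
    intro B hB hm
    have hne : (Bᶜ).Nonempty := by
      rw [← card_pos, hB]; omega
    have hc : Fintype.card {v // v ∉ B} = (Bᶜ).card := by
      rw [Fintype.card_subtype]
      congr 1
      ext v
      simp
    obtain ⟨v, hv, h1⟩ := exists_vertex G B a (by rw [hc, hB]; exact hm) hne
    have hcard : ((insert v B)ᶜ).card = m := by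
      rw [compl_insert, card_erase_of_mem hv, hB]
      rfl
    have h2 := ih (insert v B) hcard (by omega)
    have h3 : (0 : ℤ) ≤ (Fintype.card C : ℤ) - 1 := by linarith
    calc (Fintype.card C : ℤ) ^ (m + 1) * ((Av G univ a).card : ℤ)
        = (Fintype.card C : ℤ) * ((Fintype.card C : ℤ) ^ m * ((Av G univ a).card : ℤ)) := by ring
      _ ≤ (Fintype.card C : ℤ) * (((Fintype.card C : ℤ) - 1) ^ m *
          ((Av G (insert v B) a).card : ℤ)) := by gcongr
      _ = ((Fintype.card C : ℤ) - 1) ^ m *
          ((Fintype.card C : ℤ) * ((Av G (insert v B) a).card : ℤ)) := by ring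
      _ ≤ ((Fintype.card C : ℤ) - 1) ^ m *
          (((Fintype.card C : ℤ) - 1) * ((Av G B a).card : ℤ)) := by gcongr
      _ = ((Fintype.card C : ℤ) - 1) ^ (m + 1) * ((Av G B a).card : ℤ) := by ring

/-- The colourings which avoid a colour on a clique. -/
theorem card_Av_clique (G : SimpleGraph V) (K : Finset V) (hK : G.IsClique K) (a : C) :
    (Fintype.card C : ℤ) * ((Av G K a).card : ℤ) =
      ((Fintype.card C : ℤ) - K.card) * ((Col G C).card : ℤ) := by
  have h1 : (Fintype.card C : ℤ) * ((Av G K a).card : ℤ) =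
      ∑ c ∈ Col G C, ((Fintype.card C : ℤ) - ((K.image c).card : ℤ)) := by
    rw [← total_card G K]
    rw [sum_congr rfl (fun a' _ => (card_Av_symm G K a a').symm), sum_const, card_univ,
      nsmul_eq_mul]
  rw [h1]
  have h2 : ∀ c ∈ Col G C, ((Fintype.card C : ℤ) - ((K.image c).card : ℤ)) =
      (Fintype.card C : ℤ) - K.card := by
    intro c hc
    rw [card_image_of_injOn]
    intro u hu v hv huv
    by_contra hne
    exact mem_Col.1 hc u v (hK hu hv hne) huv
  rw [sum_congr rfl h2, sum_const, nsmul_eq_mul]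
  ring

lemma card_Col (G : SimpleGraph V) (C : Type) [Fintype C] :
    Nat.card (G.Coloring C) = (Col G C).card := by
  let e : G.Coloring C ≃ {c : V → C // ∀ u v, G.Adj u v → c u ≠ c v} :=
    { toFun := fun c => ⟨c, fun u v h => c.valid h⟩
      invFun := fun c => SimpleGraph.Coloring.mk c.1 (fun {u v} h => c.2 u v h)
      left_inv := fun c => by ext; rfl
      right_inv := fun c => rfl }
  rw [Nat.card_congr e, Nat.card_eq_fintype_card, Fintype.card_subtype]
  rfl

lemma card_Av_last (G : SimpleGraph V) (L : ℕ) :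
    (Av G univ (Fin.last L)).card = (Col G (Fin L)).card := by
  symm
  refine card_bij (fun c _ => fun v => (c v).castSucc) ?_ ?_ ?_
  · intro c hc
    rw [mem_Col] at hc
    rw [mem_Av, mem_Col]
    refine ⟨fun u v huv h => hc u v huv (Fin.castSucc_injective _ h), fun v _ => ?_⟩
    exact (Fin.castSucc_lt_last _).ne
  · intro c _ d _ h
    funext v
    exact Fin.castSucc_injective _ (congrFun h v)
  · intro d hd
    rw [mem_Av, mem_Col] at hd
    have h1 : ∀ v, d v ≠ Fin.last L := fun v => hd.2 v (mem_univ v)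
    refine ⟨fun v => (d v).castPred (h1 v), ?_, ?_⟩
    · rw [mem_Col]
      intro u v huv h
      apply hd.1 u v huv
      have := congrArg Fin.castSucc h
      simpa using this
    · funext v
      simp

/-- **Main theorem.** For a clique `K` of a graph `G` with `n` vertices and `λ ≥ n - |K|`
colours. -/
theorem main (G : SimpleGraph V) (K : Finset V) (hK : G.IsClique K) (L : ℕ)
    (h : (Kᶜ).card ≤ L + 1) :
    ((L : ℤ) + 1) ^ ((Kᶜ).card + 1) * (Nat.card (G.Coloring (Fin L)) : ℤ) ≤
      (L : ℤ) ^ (Kᶜ).card * (((L : ℤ) + 1 - K.card) * (Nat.card (G.Coloring (Fin (L + 1))) : ℤ)) := by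
  have h1 := chain G (Fin.last L) (Kᶜ).card K rfl (by rw [Fintype.card_fin]; exact h)
  have h2 := card_Av_clique G K hK (Fin.last L)
  rw [card_Av_last] at h1
  rw [Fintype.card_fin] at h1 h2
  push_cast at h1 h2
  rw [card_Col, card_Col, ← h2]
  have e : (L : ℤ) + 1 - 1 = L := by ring
  rw [e] at h1
  have h3 : (0 : ℤ) ≤ (L : ℤ) + 1 := by positivity
  calc ((L : ℤ) + 1) ^ ((Kᶜ).card + 1) * ((Col G (Fin L)).card : ℤ)
      = ((L : ℤ) + 1) * (((L : ℤ) + 1) ^ (Kᶜ).card * ((Col G (Fin L)).card : ℤ)) := by ring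
    _ ≤ ((L : ℤ) + 1) * ((L : ℤ) ^ (Kᶜ).card * ((Av G K (Fin.last L)).card : ℤ)) := by gcongr
    _ = (L : ℤ) ^ (Kᶜ).card * (((L : ℤ) + 1) * ((Av G K (Fin.last L)).card : ℤ)) := by ring

end Pool.Agent.W181
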